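import Pool.Agent.Lib.MP_8dbd20_lc.Main

/-!
# MP_8dbd20_lc: β-models of `Z₂ + Σ¹_∞-AC + ¬ Π¹₂-DC` from β-models of `Z₂`

The language (`Tm`, `Fm`, `Fm.Sat`) and the schemes (`IsZ2`, `HasAC`, `HasPi12DC`, `IsBeta`) are
defined in `Pool/Agent/Lib/Z2/L2.lean`; `sec X n = {m | ⟨n, m⟩ ∈ X}` in `Pool/Agent/Lib/Z2/Base.lean`.
An ω-model is identified with its class of sets `M : Set (Set ℕ)`.
-/

namespace Pool.Agent.Results.MP_8dbd20_lc.ChoiceWithoutDC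

open Pool.Agent.Lib.Z2 (sec IsZ2 HasAC HasPi12DC IsBeta)

/-- The countable ω-model coded by the real `E`: the class of its sections. -/
def Coded (E : Set ℕ) : Set (Set ℕ) := {X | ∃ n, X = sec E n}

/-- `R` codes a (reflexive) linear order of its field `{i | ⟨i, i⟩ ∈ R}`. -/
def LinOrd (R : Set ℕ) : Prop :=
  (∀ i j, Nat.pair i j ∈ R → Nat.pair i i ∈ R ∧ Nat.pair j j ∈ R) ∧
  (∀ i j, Nat.pair i j ∈ R → Nat.pair j i ∈ R → i = j) ∧
  (∀ i j k, Nat.pair i j ∈ R → Nat.pair j k ∈ R → Nat.pair i k ∈ R) ∧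
  (∀ i j, Nat.pair i i ∈ R → Nat.pair j j ∈ R → Nat.pair i j ∈ R ∨ Nat.pair j i ∈ R)

/-- `f` codes a descending sequence of the linear order coded by `R`. -/
def Desc (f R : Set ℕ) : Prop :=
  (∀ k, ∃ x, Nat.pair k x ∈ f) ∧
  ∀ k x y, Nat.pair k x ∈ f → Nat.pair (k + 1) y ∈ f → Nat.pair y x ∈ R ∧ y ≠ x

/-- `R` is a well-order in the sense of the ω-model `M`: a linear order without descending
sequence in `M`. -/
def WellOrd (M : Set (Set ℕ)) (R : Set ℕ) : Prop := LinOrd R ∧ ∀ f ∈ M, ¬ Desc f R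

/-- `h` is an isomorphism from the order coded by `R` onto the order coded by `R'`. -/
def IsIso (h : ℕ → ℕ) (R R' : Set ℕ) : Prop :=
  (∀ i, Nat.pair i i ∈ R → Nat.pair (h i) (h i) ∈ R') ∧
  (∀ i j, Nat.pair i i ∈ R → Nat.pair j j ∈ R → (Nat.pair i j ∈ R ↔ Nat.pair (h i) (h j) ∈ R')) ∧
  (∀ j, Nat.pair j j ∈ R' → ∃ i, Nat.pair i i ∈ R ∧ h i = j)

/-- `N` is an ω-model of `T = Z₂ + Σ¹_∞-AC + ¬ Π¹₂-DC`; it is a β-model if `M` is; and every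
well-order of `N` is isomorphic, by a map in `N`, to an order in `M ∩ N` which is a well-order of
`M`. -/
def Companion (M N : Set (Set ℕ)) : Prop :=
  N.Nonempty ∧ IsZ2 N ∧ HasAC N ∧ ¬ HasPi12DC N ∧ (IsBeta M → IsBeta N) ∧
  ∀ R ∈ N, WellOrd N R → ∃ R' ∈ M, R' ∈ N ∧ WellOrd M R' ∧
    ∃ h : ℕ → ℕ, {x : ℕ | x.unpair.2 = h x.unpair.1} ∈ N ∧ IsIso h R R'

/-- Every ω-model `M` of `Z₂` has a countable companion `N`; and if `M` is coded by a real of some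
β-model `K`, then a companion is coded by a real of `K`, too. -/
theorem result : ∀ M : Set (Set ℕ), M.Nonempty → IsZ2 M →
    (∃ N : Set (Set ℕ), N.Countable ∧ Companion M N) ∧
    ∀ K : Set (Set ℕ), K.Nonempty → IsBeta K → (∃ E ∈ K, M = Coded E) →
      ∃ E' ∈ K, Companion M (Coded E') := by
  intro M hne hM
  refine ⟨?_, ?_⟩
  · obtain ⟨N, h1, h2, h3, h4, h5, h6, h7⟩ := B8d.main13 M hne hM
    refine ⟨N, h2, h1, h3, h4, h5, h6, ?_⟩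
    intro R hR hw
    obtain ⟨R', a1, a2, a3, a4, h, a5, a6⟩ := h7 R hR hw.1 hw.2
    exact ⟨R', a1, a2, ⟨a3, a4⟩, h, a5, a6⟩
  · rintro K hK hb ⟨E, hE, rfl⟩
    obtain ⟨E', hE', h1, h3, h4, h5, h6, h7⟩ := B8d.mainAb K hK hb E hE hM
    refine ⟨E', hE', h1, h3, h4, h5, h6, ?_⟩
    intro R hR hw
    obtain ⟨R', a1, a2, a3, a4, h, a5, a6⟩ := h7 R hR hw.1 hw.2
    exact ⟨R', a1, a2, ⟨a3, a4⟩, h, a5, a6⟩

end Pool.Agent.Results.MP_8dbd20_lc.ChoiceWithoutDC
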